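import Pool.Agent.Helper54.UN.St

/-!
# Project UN, part (C), module SG2
-/

set_option autoImplicit false

noncomputable section

namespace Pool.Agent.Helper21.UNC

open Set Filter Topology Pool.Agent.Helper71.UN Pool.Agent.Helper54.UN

private theorem pdt {x v y u : ℝ} (hx : 48 / 100 ≤ x) (hv : 84 / 100 ≤ v) (hy1 : -(4 / 100) ≤ y)
    (hy2 : y ≤ 4 / 100) (hu1 : -(11 / 10) ≤ u) (hu2 : u ≤ 11 / 10) : 0 < x * v - y * u := by
  have h1 : 48 / 100 * (84 / 100) ≤ x * v := mul_le_mul hx hv (by norm_num) (by linarith)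
  have h2 : |y * u| ≤ 4 / 100 * (11 / 10) := by
    rw [abs_mul]
    exact mul_le_mul (abs_le.2 ⟨by linarith, hy2⟩) (abs_le.2 ⟨by linarith, hu2⟩) (abs_nonneg _) (by norm_num)
  have h3 := (abs_le.1 h2).2
  linarith

private theorem qdt {x y t : ℝ} (hx : 48 / 100 ≤ x) (hy : y ≤ 4 / 100) (ht : 173 / 100 < t) :
    0 < (-1 / 2) * y - (-(t / 2)) * x := by
  have h1 : 173 / 100 * (48 / 100) ≤ t * x := mul_le_mul ht.le hx (by norm_num) (by linarith)
  linarith

/-- The coordinates of the points in the bounds used below. -/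
private theorem bds {η : ℝ} {a b τ : ℂ} {s θ : ℝ} (hη : η ≤ 1 / 100) (h : Cf1 η a b τ s θ) (hSG1 : StSG1) :
    (|a.re - 1 / 2| ≤ 1 / 100 ∧ |a.im - Real.sqrt 3 / 2| ≤ 1 / 100 ∧ |b.re - 1 / 2| ≤ 1 / 100 ∧
      |b.im - Real.sqrt 3 / 2| ≤ 1 / 100) ∧
    (0 < b.im - a.im ∧ b.im - a.im ≤ 1 / 50 ∧ |b.re - a.re| ≤ 3 / 5 * (b.im - a.im)) ∧
    τ.re = -1 / 2 + s * ((a.re + 1 / 2) + θ * (b.re - a.re)) ∧
    τ.im = Real.sqrt 3 / 2 + s * ((a.im - Real.sqrt 3 / 2) + θ * (b.im - a.im)) := by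
  obtain ⟨g1, g2, g3⟩ := hSG1 η a b τ s θ hη h
  simp only [Complex.sub_im, Complex.sub_re] at g1 g2 g3
  have nr : ∀ z : ℂ, ‖z - (1 + om)‖ ≤ η → |z.re - 1 / 2| ≤ 1 / 100 ∧ |z.im - Real.sqrt 3 / 2| ≤ 1 / 100 := by
    intro z hz
    have h1 := (Complex.abs_re_le_norm (z - (1 + om))).trans (hz.trans hη)
    have h2 := (Complex.abs_im_le_norm (z - (1 + om))).trans (hz.trans hη)
    simp only [Complex.sub_re, Complex.sub_im, Complex.add_re, Complex.add_im, Complex.one_re, Complex.one_im,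
      om_re, om_im] at h1 h2
    have e1 : z.re - (1 + -1 / 2) = z.re - 1 / 2 := by ring
    have e2 : z.im - (0 + Real.sqrt 3 / 2) = z.im - Real.sqrt 3 / 2 := by ring
    rw [e1] at h1
    rw [e2] at h2
    exact ⟨h1, h2⟩
  refine ⟨⟨(nr a h.ha).1, (nr a h.ha).2, (nr b h.hb).1, (nr b h.hb).2⟩, ⟨g1, g3, g2⟩, ?_, ?_⟩
  · have e := congrArg Complex.re h.hτ
    simp only [Complex.add_re, Complex.sub_re, Complex.mul_re, Complex.ofReal_re, Complex.ofReal_im, Complex.add_im,
      Complex.sub_im, Complex.mul_im, om_re, om_im] at e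
    rw [e]
    ring
  · have e := congrArg Complex.im h.hτ
    simp only [Complex.add_re, Complex.sub_re, Complex.mul_re, Complex.ofReal_re, Complex.ofReal_im, Complex.add_im,
      Complex.sub_im, Complex.mul_im, om_re, om_im] at e
    rw [e]
    ring

theorem hSG2 (hSG1 : StSG1) : StSG2 := by
  intro η a b τ s θ hη h
  obtain ⟨⟨na1, na2, nb1, nb2⟩, ⟨q0, q1, pq⟩, τr, τi⟩ := bds hη h hSG1
  have s0 := h.s0
  have s1 := h.s1
  have θ0 := h.θ0
  have θ1 := h.θ1
  have X1 : 0 < dt (a - om) (b - a) := h.h1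
  have X2 : 0 < dt (b - a) (a - 1) := h.h2
  have t0 := s3_gt
  have t1 := s3_lt
  obtain ⟨a1l, a1u⟩ := abs_le.1 na1
  obtain ⟨a2l, a2u⟩ := abs_le.1 na2
  obtain ⟨b1l, b1u⟩ := abs_le.1 nb1
  obtain ⟨b2l, b2u⟩ := abs_le.1 nb2
  obtain ⟨pl, pu⟩ := abs_le.1 pq
  have sθ0 : 0 < s * θ := mul_pos s0 θ0
  have sθ1 : s * θ < s := by nlinarith
  have u1 : 0 < 1 - s := by linarith
  have u2 : 0 < 1 - θ := by linarith
  have u3 : 0 < 1 - s * θ := by linarith
  have u4 : 0 < 1 - s + s * θ := by linarith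
  -- the coordinates of `a - τ` and `b - τ`
  have Ar : (a - τ).re = (1 - s) * (a.re + 1 / 2) - s * θ * (b.re - a.re) := by
    rw [Complex.sub_re, τr]; ring
  have Ai : (a - τ).im = (1 - s) * (a.im - Real.sqrt 3 / 2) - s * θ * (b.im - a.im) := by
    rw [Complex.sub_im, τi]; ring
  have Br : (b - τ).re = (1 - s) * (a.re + 1 / 2) + (1 - s * θ) * (b.re - a.re) := by
    rw [Complex.sub_re, τr]; ring
  have Bi : (b - τ).im = (1 - s) * (a.im - Real.sqrt 3 / 2) + (1 - s * θ) * (b.im - a.im) := by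
    rw [Complex.sub_im, τi]; ring
  have m1 : 99 / 200 ≤ (1 - s) * (a.re + 1 / 2) := by nlinarith
  have m2 : |(1 - s) * (a.im - Real.sqrt 3 / 2)| ≤ 1 / 100 := by
    rw [abs_mul, abs_of_pos u1]
    have := abs_nonneg (a.im - Real.sqrt 3 / 2)
    nlinarith
  have m3 : |s * θ * (b.re - a.re)| ≤ 6 / 1000 := by
    rw [abs_mul, abs_of_pos sθ0]
    have h1 : |b.re - a.re| ≤ 12 / 1000 := by linarith
    have := abs_nonneg (b.re - a.re)
    nlinarith
  have m4 : |(1 - s * θ) * (b.re - a.re)| ≤ 12 / 1000 := by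
    rw [abs_mul, abs_of_pos u3]
    have h1 : |b.re - a.re| ≤ 12 / 1000 := by linarith
    have := abs_nonneg (b.re - a.re)
    nlinarith
  have m5 : 0 ≤ s * θ * (b.im - a.im) ∧ s * θ * (b.im - a.im) ≤ 1 / 100 := by
    constructor
    · positivity
    · nlinarith
  have m6 : 0 ≤ (1 - s * θ) * (b.im - a.im) ∧ (1 - s * θ) * (b.im - a.im) ≤ 1 / 50 := by
    constructor
    · positivity
    · nlinarith
  obtain ⟨m2l, m2u⟩ := abs_le.1 m2
  obtain ⟨m3l, m3u⟩ := abs_le.1 m3
  obtain ⟨m4l, m4u⟩ := abs_le.1 m4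
  have A1 : 48 / 100 ≤ (a - τ).re := by rw [Ar]; linarith
  have A2 : -(4 / 100) ≤ (a - τ).im := by rw [Ai]; linarith [m5.2]
  have A3 : (a - τ).im ≤ 4 / 100 := by rw [Ai]; linarith [m5.1]
  have B1 : 48 / 100 ≤ (b - τ).re := by rw [Br]; linarith
  have B2 : -(4 / 100) ≤ (b - τ).im := by rw [Bi]; linarith [m6.1]
  have B3 : (b - τ).im ≤ 4 / 100 := by rw [Bi]; linarith [m6.2]
  have E1 : 48 / 100 ≤ (a - om).re := by rw [Complex.sub_re, om_re]; linarith
  have E2 : -(4 / 100) ≤ (a - om).im := by rw [Complex.sub_im, om_im]; linarith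
  have E3 : (a - om).im ≤ 4 / 100 := by rw [Complex.sub_im, om_im]; linarith
  have F1 : 48 / 100 ≤ (b - om).re := by rw [Complex.sub_re, om_re]; linarith
  have F2 : -(4 / 100) ≤ (b - om).im := by rw [Complex.sub_im, om_im]; linarith
  have F3 : (b - om).im ≤ 4 / 100 := by rw [Complex.sub_im, om_im]; linarith
  have G1 : -(11 / 10) ≤ (a - 1).re := by rw [Complex.sub_re, Complex.one_re]; linarith
  have G2 : (a - 1).re ≤ 11 / 10 := by rw [Complex.sub_re, Complex.one_re]; linarith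
  have G3 : 84 / 100 ≤ (a - 1).im := by rw [Complex.sub_im, Complex.one_im]; linarith
  have H1 : -(11 / 10) ≤ (b - 1).re := by rw [Complex.sub_re, Complex.one_re]; linarith
  have H2 : (b - 1).re ≤ 11 / 10 := by rw [Complex.sub_re, Complex.one_re]; linarith
  have H3 : 84 / 100 ≤ (b - 1).im := by rw [Complex.sub_im, Complex.one_im]; linarith
  have or : (-(1 + om)).re = -1 / 2 := by
    simp only [Complex.neg_re, Complex.add_re, Complex.one_re, om_re]; norm_num
  have oi : (-(1 + om)).im = -(Real.sqrt 3 / 2) := by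
    simp only [Complex.neg_im, Complex.add_im, Complex.one_im, om_im]; ring
  refine
    { na1 := na1.trans (by norm_num)
      na2 := na2.trans (by norm_num)
      nb1 := nb1.trans (by norm_num)
      nb2 := nb2.trans (by norm_num)
      d0 := by linarith
      d1 := by linarith
      d2 := by linarith
      d3 := by linarith
      d4 := by rw [Complex.sub_re, Complex.one_re]; linarith
      d5 := by rw [Complex.sub_re, Complex.one_re]; linarith
      d6 := by rw [or]; norm_num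
      t01 := ?_, t12 := ?_, t23 := ?_, t02 := ?_, t03 := ?_, t13 := ?_, t45 := ?_
      t04 := by rw [dt_eq]; exact pdt A1 H3 A2 A3 H1 H2
      t05 := by rw [dt_eq]; exact pdt A1 G3 A2 A3 G1 G2
      t14 := by rw [dt_eq]; exact pdt E1 H3 E2 E3 H1 H2
      t15 := by rw [dt_eq]; exact pdt E1 G3 E2 E3 G1 G2
      t24 := by rw [dt_eq]; exact pdt F1 H3 F2 F3 H1 H2
      t25 := by rw [dt_eq]; exact pdt F1 G3 F2 F3 G1 G2
      t34 := by rw [dt_eq]; exact pdt B1 H3 B2 B3 H1 H2
      t35 := by rw [dt_eq]; exact pdt B1 G3 B2 B3 G1 G2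
      t46 := ?_
      t56 := ?_
      t60 := by rw [dt_eq, or, oi]; exact qdt A1 A3 t0
      t61 := by rw [dt_eq, or, oi]; exact qdt E1 E3 t0
      t62 := by rw [dt_eq, or, oi]; exact qdt F1 F3 t0
      t63 := by rw [dt_eq, or, oi]; exact qdt B1 B3 t0
      e0 := ?_, e1 := ?_, e2 := ?_, e3 := ?_, e4 := ?_, e5 := ?_ }
  · exact (mul_pos sθ0 X1).trans_eq (by
      simp only [dt_eq, Complex.sub_re, Complex.sub_im, om_re, om_im, τr, τi]; ring)
  · exact X1.trans_eq (by simp only [dt_eq, Complex.sub_re, Complex.sub_im, om_re, om_im]; ring)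
  · exact (mul_pos (mul_pos s0 u2) X1).trans_eq (by
      simp only [dt_eq, Complex.sub_re, Complex.sub_im, om_re, om_im, τr, τi]; ring)
  · exact (mul_pos u4 X1).trans_eq (by
      simp only [dt_eq, Complex.sub_re, Complex.sub_im, om_re, om_im, τr, τi]; ring)
  · exact (mul_pos u1 X1).trans_eq (by
      simp only [dt_eq, Complex.sub_re, Complex.sub_im, om_re, om_im, τr, τi]; ring)
  · exact (mul_pos u3 X1).trans_eq (by
      simp only [dt_eq, Complex.sub_re, Complex.sub_im, om_re, om_im, τr, τi]; ring)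
  · exact X2.trans_eq (by simp only [dt_eq, Complex.sub_re, Complex.sub_im, Complex.one_re, Complex.one_im]; ring)
  · rw [dt_eq, or, oi]
    rw [Complex.sub_re, Complex.sub_im, Complex.one_re, Complex.one_im] at *
    nlinarith
  · rw [dt_eq, or, oi]
    rw [Complex.sub_re, Complex.sub_im, Complex.one_re, Complex.one_im] at *
    nlinarith
  · have e : dt (b - a) (a - τ) = -((1 - s) * dt (a - om) (b - a)) := by
      simp only [dt_eq, Complex.sub_re, Complex.sub_im, om_re, om_im, τr, τi]; ring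
    rw [e]; exact neg_neg_of_pos (mul_pos u1 X1)
  · have e : dt (b - a) (a - om) = -dt (a - om) (b - a) := by
      simp only [dt_eq, Complex.sub_re, Complex.sub_im, om_re, om_im]; ring
    rw [e]; exact neg_neg_of_pos X1
  · have e : dt (b - a) (b - om) = -dt (a - om) (b - a) := by
      simp only [dt_eq, Complex.sub_re, Complex.sub_im, om_re, om_im]; ring
    rw [e]; exact neg_neg_of_pos X1
  · have e : dt (b - a) (b - τ) = -((1 - s) * dt (a - om) (b - a)) := by
      simp only [dt_eq, Complex.sub_re, Complex.sub_im, om_re, om_im, τr, τi]; ring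
    rw [e]; exact neg_neg_of_pos (mul_pos u1 X1)
  · exact X2.trans_eq (by simp only [dt_eq, Complex.sub_re, Complex.sub_im, Complex.one_re, Complex.one_im]; ring)
  · exact X2

end Pool.Agent.Helper21.UNC
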