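import Pool.Agent.Helper54.UN.St

/-!
# Project UN, part (C), module SG3
-/

set_option autoImplicit false

noncomputable section

namespace Pool.Agent.Helper21.UNC

open Set Filter Topology Pool.Agent.Helper71.UN Pool.Agent.Helper54.UN

/-- The coordinates of the points in the bounds used below. -/
private theorem bds3 {η : ℝ} {a b τ : ℂ} {s θ : ℝ} (hη : η ≤ 1 / 100) (h : Cf1 η a b τ s θ) (hSG1 : StSG1) :
    (|a.re - 1 / 2| ≤ 1 / 100 ∧ |a.im - Real.sqrt 3 / 2| ≤ 1 / 100 ∧ |b.re - 1 / 2| ≤ 1 / 100 ∧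
      |b.im - Real.sqrt 3 / 2| ≤ 1 / 100) ∧
    (0 < b.im - a.im ∧ b.im - a.im ≤ 1 / 50 ∧ |b.re - a.re| ≤ 3 / 5 * (b.im - a.im)) ∧
    τ.re = -1 / 2 + s * ((a.re + 1 / 2) + θ * (b.re - a.re)) ∧
    τ.im = Real.sqrt 3 / 2 + s * ((a.im - Real.sqrt 3 / 2) + θ * (b.im - a.im)) := by
  obtain ⟨g1, g2, g3⟩ := hSG1 η a b τ s θ hη h
  simp only [Complex.sub_im, Complex.sub_re] at g1 g2 g3
  have nr : ∀ z : ℂ, ‖z - (1 + om)‖ ≤ η → |z.re - 1 / 2| ≤ 1 / 100 ∧ |z.im - Real.sqrt 3 / 2| ≤ 1 / 100 := by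
    intro z hz
    have h1 := (Complex.abs_re_le_norm (z - (1 + om))).trans (hz.trans hη)
    have h2 := (Complex.abs_im_le_norm (z - (1 + om))).trans (hz.trans hη)
    simp only [Complex.sub_re, Complex.sub_im, Complex.add_re, Complex.add_im, Complex.one_re, Complex.one_im,
      om_re, om_im] at h1 h2
    have e1 : z.re - (1 + -1 / 2) = z.re - 1 / 2 := by ring
    have e2 : z.im - (0 + Real.sqrt 3 / 2) = z.im - Real.sqrt 3 / 2 := by ring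
    rw [e1] at h1
    rw [e2] at h2
    exact ⟨h1, h2⟩
  refine ⟨⟨(nr a h.ha).1, (nr a h.ha).2, (nr b h.hb).1, (nr b h.hb).2⟩, ⟨g1, g3, g2⟩, ?_, ?_⟩
  · have e := congrArg Complex.re h.hτ
    simp only [Complex.add_re, Complex.sub_re, Complex.mul_re, Complex.ofReal_re, Complex.ofReal_im, Complex.add_im,
      Complex.sub_im, Complex.mul_im, om_re, om_im] at e
    rw [e]
    ring
  · have e := congrArg Complex.im h.hτ
    simp only [Complex.add_re, Complex.sub_re, Complex.mul_re, Complex.ofReal_re, Complex.ofReal_im, Complex.add_im,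
      Complex.sub_im, Complex.mul_im, om_re, om_im] at e
    rw [e]
    ring

private theorem mb {x y p q : ℝ} (hx : |x| ≤ p) (hy : |y| ≤ q) : |x * y| ≤ p * q := by
  rw [abs_mul]
  exact mul_le_mul hx hy (abs_nonneg _) ((abs_nonneg _).trans hx)

theorem hSG3 (hSG1 : StSG1) : StSG3 := by
  intro η a b τ s θ hη h
  obtain ⟨⟨na1, na2, nb1, nb2⟩, ⟨q0, q1, pq⟩, τr, τi⟩ := bds3 hη h hSG1
  have s0 := h.s0
  have s1 := h.s1
  have θ0 := h.θ0
  have θ1 := h.θ1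
  have X1 : 0 < (a.re + 1 / 2) * (b.im - a.im) - (a.im - Real.sqrt 3 / 2) * (b.re - a.re) := by
    have h1 := h.h1
    simp only [dt_eq, Complex.sub_re, Complex.sub_im, om_re, om_im] at h1
    linarith
  have X2 : 0 < (b.re - a.re) * a.im - (b.im - a.im) * (a.re - 1) := by
    have h1 := h.h2
    simp only [dt_eq, Complex.sub_re, Complex.sub_im, Complex.one_re, Complex.one_im] at h1
    linarith
  have hs3 := s3
  have t0 := s3_gt
  have t1 := s3_lt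
  clear hSG1 h
  have omr := om_re
  have omi := om_im
  -- real variables
  generalize ht : Real.sqrt 3 = t at *
  obtain ⟨α1, ha1⟩ : ∃ α1, α1 = a.re - 1 / 2 := ⟨_, rfl⟩
  obtain ⟨α2, ha2⟩ : ∃ α2, α2 = a.im - t / 2 := ⟨_, rfl⟩
  obtain ⟨β1, hb1⟩ : ∃ β1, β1 = b.re - 1 / 2 := ⟨_, rfl⟩
  obtain ⟨β2, hb2⟩ : ∃ β2, β2 = b.im - t / 2 := ⟨_, rfl⟩
  rw [← ha1] at na1
  rw [← ha2] at na2
  rw [← hb1] at nb1
  rw [← hb2] at nb2
  have ea1 : a.re = 1 / 2 + α1 := by linarith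
  have ea2 : a.im = t / 2 + α2 := by linarith
  have eb1 : b.re = 1 / 2 + β1 := by linarith
  have eb2 : b.im = t / 2 + β2 := by linarith
  obtain ⟨x, hx⟩ : ∃ x, x = τ.re := ⟨_, rfl⟩
  obtain ⟨y, hy⟩ : ∃ y, y = τ.im := ⟨_, rfl⟩
  rw [← hx] at τr
  rw [← hy] at τi
  rw [ea1, eb1] at τr
  rw [ea2, eb2] at τi
  rw [ea1, ea2, eb1, eb2] at X1 X2
  rw [ea2, eb2] at q0 q1
  rw [ea1, eb1, ea2, eb2] at pq
  have fa : ∀ (u v w z : ℝ), u * v - w * z = u * v - w * z := fun _ _ _ _ => rfl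
  clear ha1 ha2 hb1 hb2 fa
  obtain ⟨a1l, a1u⟩ := abs_le.1 na1
  obtain ⟨a2l, a2u⟩ := abs_le.1 na2
  obtain ⟨b1l, b1u⟩ := abs_le.1 nb1
  obtain ⟨b2l, b2u⟩ := abs_le.1 nb2
  have tt : |t| ≤ 1733 / 1000 := abs_le.2 ⟨by linarith, t1.le⟩
  obtain ⟨k1, k1'⟩ := abs_le.1 (mb na1 tt)
  obtain ⟨k2, k2'⟩ := abs_le.1 (mb na2 tt)
  obtain ⟨k3, k3'⟩ := abs_le.1 (mb nb1 tt)
  obtain ⟨k4, k4'⟩ := abs_le.1 (mb nb2 tt)
  obtain ⟨k5, k5'⟩ := abs_le.1 (mb na1 na2)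
  obtain ⟨k6, k6'⟩ := abs_le.1 (mb nb1 nb2)
  obtain ⟨k7, k7'⟩ := abs_le.1 (mb na1 nb2)
  obtain ⟨k8, k8'⟩ := abs_le.1 (mb na2 nb1)
  norm_num at k1 k1' k2 k2' k3 k3' k4 k4' k5 k5' k6 k6' k7 k7' k8 k8'
  have sθ0 : 0 < s * θ := mul_pos s0 θ0
  have u1 : 0 < 1 - s := by linarith
  have u2 : 0 < 1 - θ := by linarith
  -- `τ = om + s (U, V)`
  have m1 : |θ * (β1 - α1)| ≤ 1 * (2 / 100) :=
    mb (abs_le.2 ⟨by linarith, θ1.le⟩) (abs_le.2 ⟨by linarith, by linarith⟩)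
  have m2 : |θ * (β2 - α2)| ≤ 1 * (2 / 100) :=
    mb (abs_le.2 ⟨by linarith, θ1.le⟩) (abs_le.2 ⟨by linarith, by linarith⟩)
  obtain ⟨m1l, m1u⟩ := abs_le.1 m1
  obtain ⟨m2l, m2u⟩ := abs_le.1 m2
  obtain ⟨U, hU⟩ : ∃ U, U = 1 + α1 + θ * (β1 - α1) := ⟨_, rfl⟩
  obtain ⟨V, hV⟩ : ∃ V, V = α2 + θ * (β2 - α2) := ⟨_, rfl⟩
  have U1 : 97 / 100 ≤ U := by rw [hU]; linarith
  have U2 : U ≤ 103 / 100 := by rw [hU]; linarith
  have V1 : -(3 / 100) ≤ V := by rw [hV]; linarith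
  have V2 : V ≤ 3 / 100 := by rw [hV]; linarith
  have ex : x = -1 / 2 + s * U := by rw [τr, hU]; ring
  have ey : y = t / 2 + s * V := by rw [τi, hV]; ring
  have sU : |s * U| ≤ 1 / 2 * (103 / 100) :=
    mb (abs_le.2 ⟨by linarith, s1.le⟩) (abs_le.2 ⟨by linarith, U2⟩)
  have sV : |s * V| ≤ 1 / 2 * (3 / 100) :=
    mb (abs_le.2 ⟨by linarith, s1.le⟩) (abs_le.2 ⟨V1, V2⟩)
  have sU0 : 0 < s * U := mul_pos s0 (by linarith)
  obtain ⟨-, sUu⟩ := abs_le.1 sU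
  obtain ⟨sVl, sVu⟩ := abs_le.1 sV
  have UVp : 0 < -V / 2 + t * U / 2 := by
    have h1 : 173 / 100 * (97 / 100) ≤ t * U := mul_le_mul t0.le U1 (by norm_num) (by linarith)
    linarith
  have UVq : 0 < V / 2 + t * U / 2 := by
    have h1 : 173 / 100 * (97 / 100) ≤ t * U := mul_le_mul t0.le U1 (by norm_num) (by linarith)
    linarith
  have UVr : 0 < U + t * V := by
    have h1 := (abs_le.1 (mb tt (abs_le.2 ⟨V1, V2⟩))).1
    linarith
  have F5 : 1 / 2 ≤ (α1 - 1 / 2) * (t / 2) + 3 / 2 * (t / 2 + α2) := by linarith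
  have F4 : 1 / 2 ≤ (β1 - 1 / 2) * (t / 2) + 3 / 2 * (t / 2 + β2) := by linarith
  have X2u : (β1 - α1) * (t / 2 + α2) - (β2 - α2) * (α1 - 1 / 2) ≤ 1 / 10 := by linarith
  have xx : |x| ≤ 1 / 2 := by
    rw [ex]; exact abs_le.2 ⟨by linarith, by linarith⟩
  have yy : 84 / 100 ≤ y := by rw [ey]; linarith
  obtain ⟨xl, xu⟩ := abs_le.1 xx
  have x2 : x ≤ 2 / 100 := by rw [ex]; linarith
  obtain ⟨P1, hP1⟩ : ∃ P1, P1 = (1 + α1) * (β2 - α2) - α2 * (β1 - α1) := ⟨_, rfl⟩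
  obtain ⟨P2, hP2⟩ : ∃ P2, P2 = (β1 - α1) * (t / 2 + α2) - (β2 - α2) * (α1 - 1 / 2) := ⟨_, rfl⟩
  obtain ⟨Q5, hQ5⟩ : ∃ Q5, Q5 = (α1 - 1 / 2) * (t / 2) + 3 / 2 * (t / 2 + α2) := ⟨_, rfl⟩
  obtain ⟨Q4, hQ4⟩ : ∃ Q4, Q4 = (β1 - 1 / 2) * (t / 2) + 3 / 2 * (t / 2 + β2) := ⟨_, rfl⟩
  have p1 : 0 < P1 := by rw [hP1]; linarith
  have p2 : 0 < P2 := by rw [hP2]; linarith
  rw [← hP2] at X2u
  rw [← hQ5] at F5
  rw [← hQ4] at F4
  clear X1 X2
  have q5 : 1 / 2 * (1 / 2) ≤ (1 - s) * Q5 := mul_le_mul (by linarith) F5 (by norm_num) u1.le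
  have q4 : 1 / 2 * (1 / 2) ≤ (1 - s) * Q4 := mul_le_mul (by linarith) F4 (by norm_num) u1.le
  have sθ2 : s * θ ≤ 1 / 2 * 1 := mul_le_mul s1.le θ1.le θ0.le (by norm_num)
  have q2 : s * θ * P2 ≤ 1 / 2 * 1 * (1 / 10) := mul_le_mul sθ2 X2u p2.le (by norm_num)
  have tx : |t * x| ≤ 1733 / 1000 * (1 / 2) := mb tt xx
  have tx2 : t * x ≤ 1733 / 1000 * (2 / 100) := by
    by_cases h0 : 0 ≤ x
    · exact mul_le_mul t1.le x2 h0 (by norm_num)
    · have : t * x ≤ 0 := mul_nonpos_of_nonneg_of_nonpos (by linarith) (by linarith)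
      linarith
  have gA : 47 / 100 ≤ 1 / 2 + α1 - x := by rw [ex]; linarith
  have gB : 47 / 100 ≤ 1 / 2 + β1 - x := by rw [ex]; linarith
  have gC : |t / 2 + α2 - y| ≤ 3 / 100 := by rw [ey]; exact abs_le.2 ⟨by linarith, by linarith⟩
  have gD : |t / 2 + β2 - y| ≤ 3 / 100 := by rw [ey]; exact abs_le.2 ⟨by linarith, by linarith⟩
  have gE : |1 - x| ≤ 3 / 2 := abs_le.2 ⟨by linarith, by linarith⟩
  have gCE := (abs_le.1 (mb gC gE)).1
  have gDE := (abs_le.1 (mb gD gE)).1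
  have gAy : 47 / 100 * (84 / 100) ≤ (1 / 2 + α1 - x) * y := mul_le_mul gA yy (by norm_num) (by linarith)
  have gBy : 47 / 100 * (84 / 100) ≤ (1 / 2 + β1 - x) * y := mul_le_mul gB yy (by norm_num) (by linarith)
  refine
    { f5o := ?_, f5t := ?_, f5b := ?_, f5n := ?_, f5m := ?_, f1v := ?_, f1b := ?_, f1t := ?_, f1n := ?_, f1m := ?_
      f6v := ?_, f6a := ?_, f6b := ?_, f6t := ?_, f6m := ?_, f7o := ?_, f7a := ?_, f7b := ?_, f7t := ?_, f7n := ?_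
      f4a := ?_, f4o := ?_, f4t := ?_, f4n := ?_, f4m := ?_, f2a := ?_, f2v := ?_, f2t := ?_, f2n := ?_, f2m := ?_
      gdv := ?_, gdo := ?_, gdt := ?_, g0b := ?_, g0o := ?_, g0v := ?_, g3a := ?_, g3o := ?_, g3v := ?_
      ev := ?_, eo := ?_, ea := ?_, eb := ?_, et := ?_, ia := ?_, ib := ?_, it := ?_, oa := ?_, ob := ?_, ot := ?_ } <;>
    simp only [lf_eq, dt_eq, el, Complex.neg_re, Complex.neg_im, Complex.one_re, Complex.one_im, omr, omi, ea1, ea2,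
      eb1, eb2, ← hx, ← hy, ht]
  -- f5o f5t f5b f5n f5m
  · linarith only [t0, t1, hs3, a1l, a1u, a2l, a2u, k1, k1', k2, k2', k5, k5']
  · have e : (1 / 2 + α1 - 1) * (y - 0) - (t / 2 + α2 - 0) * (x - 1) = (1 - s) * Q5 - s * θ * P2 := by
      rw [hQ5, hP2, ex, ey, hU, hV]; ring
    rw [e]; linarith only [q5, q2]
  · have e : (1 / 2 + α1 - 1) * (t / 2 + β2 - 0) - (t / 2 + α2 - 0) * (1 / 2 + β1 - 1) = -P2 := by
      rw [hP2]; ring
    rw [e]; exact neg_neg_of_pos p2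
  · linarith only [t0, t1, hs3, a1l, a1u, a2l, a2u, k1, k1', k2, k2', k5, k5']
  · linarith only [t0, t1, hs3, a1l, a1u, a2l, a2u, k1, k1', k2, k2', k5, k5']
  -- f1v f1b f1t f1n f1m
  · linarith only [t0, t1, hs3, a1l, a1u, a2l, a2u, k1, k1', k2, k2', k5, k5']
  · have e : (-1 / 2 - (1 / 2 + α1)) * (t / 2 + β2 - (t / 2 + α2)) - (t / 2 - (t / 2 + α2)) * (1 / 2 + β1 - (1 / 2 + α1)) =
        -P1 := by
      rw [hP1]; ring
    rw [e]; exact neg_neg_of_pos p1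
  · have e : (-1 / 2 - (1 / 2 + α1)) * (y - (t / 2 + α2)) - (t / 2 - (t / 2 + α2)) * (x - (1 / 2 + α1)) =
        -(s * θ * P1) := by
      rw [hP1, ex, ey, hU, hV]; ring
    rw [e]; exact neg_neg_of_pos (mul_pos sθ0 p1)
  · linarith only [t0, t1, hs3, a1l, a1u, a2l, a2u, k1, k1', k2, k2', k5, k5']
  · linarith only [t0, t1, hs3, a1l, a1u, a2l, a2u, k1, k1', k2, k2', k5, k5']
  -- f6v f6a f6b f6t f6m
  · linarith only [t0]
  · linarith only [t0, t1, hs3, a1l, a1u, a2l, a2u, k1, k1', k2, k2', k5, k5']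
  · linarith only [t0, t1, hs3, b1l, b1u, b2l, b2u, k3, k3', k4, k4', k6, k6']
  · have e : (-1 - -1 / 2) * (y - t / 2) - (-0 - t / 2) * (x - -1 / 2) = s * (-V / 2 + t * U / 2) := by
      rw [ex, ey]; ring
    rw [e]; exact mul_pos s0 UVp
  · linarith only [t0]
  -- f7o f7a f7b f7t f7n
  · linarith only [t0]
  · linarith only [t0, t1, hs3, a1l, a1u, a2l, a2u, k1, k1', k2, k2', k5, k5']
  · linarith only [t0, t1, hs3, b1l, b1u, b2l, b2u, k3, k3', k4, k4', k6, k6']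
  · linarith only [tx2, yy, t0]
  · linarith only [t0]
  -- f4a f4o f4t f4n f4m
  · exact p2.trans_eq (by rw [hP2]; ring)
  · linarith only [t0, t1, hs3, b1l, b1u, b2l, b2u, k3, k3', k4, k4', k6, k6']
  · have e : (1 / 2 + β1 - 1) * (y - 0) - (t / 2 + β2 - 0) * (x - 1) = (1 - s) * Q4 + s * (1 - θ) * P2 := by
      rw [hQ4, hP2, ex, ey, hU, hV]; ring
    have e2 : 0 < s * (1 - θ) * P2 := mul_pos (mul_pos s0 u2) p2
    rw [e]; linarith only [q4, e2]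
  · linarith only [t0, t1, hs3, b1l, b1u, b2l, b2u, k3, k3', k4, k4', k6, k6']
  · linarith only [t0, t1, hs3, b1l, b1u, b2l, b2u, k3, k3', k4, k4', k6, k6']
  -- f2a f2v f2t f2n f2m
  · exact p1.trans_eq (by rw [hP1]; ring)
  · linarith only [t0, t1, hs3, b1l, b1u, b2l, b2u, k3, k3', k4, k4', k6, k6']
  · exact (mul_pos (mul_pos s0 u2) p1).trans_eq (by rw [hP1, ex, ey, hU, hV]; ring)
  · linarith only [t0, t1, hs3, b1l, b1u, b2l, b2u, k3, k3', k4, k4', k6, k6']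
  · linarith only [t0, t1, hs3, b1l, b1u, b2l, b2u, k3, k3', k4, k4', k6, k6']
  -- gdv gdo gdt
  · have e : (1 / 2 + β1 - (1 / 2 + α1)) * (0 - (t / 2 + α2)) - (t / 2 + β2 - (t / 2 + α2)) * (1 - (1 / 2 + α1)) =
        -P2 := by
      rw [hP2]; ring
    rw [e]; exact neg_neg_of_pos p2
  · exact p1.trans_eq (by rw [hP1]; ring)
  · exact (mul_pos u1 p1).trans_eq (by rw [hP1, ex, ey, hU, hV]; ring)
  -- g0b g0o g0v
  · exact (mul_pos u1 p1).trans_eq (by rw [hP1, ex, ey, hU, hV]; ring)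
  · have e : (1 / 2 + α1 - x) * (t / 2 - y) - (t / 2 + α2 - y) * (-1 / 2 - x) = -(s * θ * P1) := by
      rw [hP1, ex, ey, hU, hV]; ring
    rw [e]; exact neg_neg_of_pos (mul_pos sθ0 p1)
  · linarith only [gCE, gAy]
  -- g3a g3o g3v
  · have e : (1 / 2 + β1 - x) * (t / 2 + α2 - y) - (t / 2 + β2 - y) * (1 / 2 + α1 - x) = -((1 - s) * P1) := by
      rw [hP1, ex, ey, hU, hV]; ring
    rw [e]; exact neg_neg_of_pos (mul_pos u1 p1)
  · exact (mul_pos (mul_pos s0 u2) p1).trans_eq (by rw [hP1, ex, ey, hU, hV]; ring)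
  · linarith only [gDE, gBy]
  -- ev eo ea eb et
  · linarith only [t0]
  · linarith only [t0, hs3]
  · linarith only [t0, t1, hs3, a1l, a1u, a2l, a2u, k1, k1', k2, k2', k5, k5']
  · linarith only [t0, t1, hs3, b1l, b1u, b2l, b2u, k3, k3', k4, k4', k6, k6']
  · have e : x + t * y = 1 + s * (U + t * V) + (t * t - 3) / 2 := by
      rw [ex, ey]; ring
    have e2 : 0 < s * (U + t * V) := mul_pos s0 UVr
    rw [e, hs3]; linarith only [e2]
  -- ia ib it oa ob ot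
  · linarith only [t0, a2l]
  · linarith only [t0, b2l]
  · linarith only [yy]
  · linarith only [t0, t1, hs3, a1l, a1u, a2l, a2u, k1, k1', k2, k2', k5, k5']
  · linarith only [t0, t1, hs3, b1l, b1u, b2l, b2u, k3, k3', k4, k4', k6, k6']
  · have e : -1 / 2 * y - t / 2 * x = -(s * (V / 2 + t * U / 2)) := by
      rw [ex, ey]; ring
    rw [e]; exact neg_neg_of_pos (mul_pos s0 UVq)

end Pool.Agent.Helper21.UNC
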